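import Pool.Agent.H240P.Main

/-!
# Path odd-covers of Eulerian graphs of maximum degree four

Every finite simple graph with all degrees even and maximum degree four has a path odd-cover
with three paths.
-/

set_option autoImplicit false

namespace Pool.Agent.Results.MP_4dfdc8_co.ThreePaths

/-- `G` has a path odd-cover with `k` paths: there are `k` paths in the complete graph on the
vertex set of `G` such that a pair of vertices is an edge of `G` if and only if it is an edge of
an odd number of the paths. -/
def HasPathOddCover {V : Type*} [DecidableEq V] (G : SimpleGraph V) (k : ℕ) : Prop :=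
  ∃ (a b : Fin k → V) (P : ∀ i, (⊤ : SimpleGraph V).Walk (a i) (b i)),
    (∀ i, (P i).IsPath) ∧
      ∀ e : Sym2 V, e ∈ G.edgeSet ↔ Odd (Finset.univ.filter (fun i => e ∈ (P i).edges)).card

/-- The path odd-cover number `p₂(G)`: the least `k` such that `G` has a path odd-cover with
`k` paths. -/
noncomputable def p₂ {V : Type*} [DecidableEq V] (G : SimpleGraph V) : ℕ :=
  sInf {k | HasPathOddCover G k}

/-- **Three paths suffice.** Let `G` be a finite simple graph in which all degrees are even and
the maximum degree is four.  Then `G` has a path odd-cover with three paths; hence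
`p₂(G) ≤ 3`. -/
theorem result {V : Type*} [Fintype V] [DecidableEq V] (G : SimpleGraph V) [DecidableRel G.Adj]
    (heven : ∀ v, Even (G.degree v)) (hΔ : G.maxDegree = 4) :
    HasPathOddCover G 3 ∧ p₂ G ≤ 3 := by
  have hne : Nonempty V := by
    by_contra h
    rw [not_nonempty_iff] at h
    rw [SimpleGraph.maxDegree_of_subsingleton] at hΔ
    omega
  obtain ⟨v, hv⟩ := G.exists_maximal_degree_vertex
  rw [hΔ] at hv
  obtain ⟨P₁, P₂, P₃, ⟨a₁, b₁, p₁, h₁, e₁⟩, ⟨a₂, b₂, p₂, h₂, e₂⟩, ⟨a₃, b₃, p₃, h₃, e₃⟩, hP⟩ :=
    Pool.Agent.H240P.main G heven (fun w => hΔ ▸ G.degree_le_maxDegree w) hv.symm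
  have hcov : HasPathOddCover G 3 := by
    refine ⟨![a₁, a₂, a₃], ![b₁, b₂, b₃],
      fun i => match i with | 0 => p₁ | 1 => p₂ | 2 => p₃, ?_, fun e => ?_⟩
    · intro i
      fin_cases i
      · exact h₁
      · exact h₂
      · exact h₃
    · rw [hP e, Finset.card_filter, Fin.sum_univ_three]
      simp only [Pool.Agent.H240P.ind, ← e₁, ← e₂, ← e₃]
      rfl
  exact ⟨hcov, Nat.sInf_le hcov⟩

end Pool.Agent.Results.MP_4dfdc8_co.ThreePaths
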